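import Pool.Agent.U945.AL.Quo

set_option autoImplicit false

/-!
# Sums of two elements of a group of finite rank which have an algebraic power
-/

namespace Pool.Agent.U945.BR

open Module Finset Pool.Agent.N175.BG Pool.Agent.U945.AL
open Pool.Agent.H301R2.SSE (QB mem_QB Lt Lt_one Lt_log Lg mem_Lg)

variable {F : Type} [Field F]

lemma indiv_inv {r : ℕ} {g : Fin r → F} {z : F} (hz : InDiv g z) : InDiv g z⁻¹ := by
  obtain ⟨m, hm, a, ha⟩ := hz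
  refine ⟨m, hm, fun j => - a j, ?_⟩
  rw [inv_pow, ha, ← Finset.prod_inv_distrib]
  exact Finset.prod_congr rfl fun j _ => (zpow_neg _ _).symm

lemma indiv_neg {r : ℕ} {g : Fin r → F} {z : F} (hz : InDiv g z) : InDiv g (-z) := by
  obtain ⟨m, hm, a, ha⟩ := hz
  refine ⟨2 * m, by omega, fun j => 2 * a j, ?_⟩
  rw [pow_mul, neg_sq, ← pow_mul, mul_comm 2 m, pow_mul, ha, ← Finset.prod_pow]
  refine Finset.prod_congr rfl fun j _ => ?_
  beta_reduce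
  rw [mul_comm 2 (a j), zpow_mul]
  exact (zpow_ofNat _ 2).symm

lemma indiv_one {r : ℕ} (g : Fin r → F) : InDiv g 1 :=
  ⟨1, one_pos, 0, by simp⟩

lemma indiv_zpow {r : ℕ} {g : Fin r → F} {z : F} (hz : InDiv g z) (n : ℤ) : InDiv g (z ^ n) := by
  obtain ⟨m, hm, a, ha⟩ := hz
  refine ⟨m, hm, fun j => n * a j, ?_⟩
  rw [← zpow_natCast, ← zpow_mul, mul_comm n, zpow_mul, zpow_natCast, ha, ← Finset.prod_zpow]
  exact Finset.prod_congr rfl fun j _ => by beta_reduce; rw [mul_comm n, zpow_mul]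

/-- **The ratios.** -/
theorem ratios : ∃ C : ℕ, 1 ≤ C ∧ ∀ (m r : ℕ) (F : Type) [Field F] [CharZero F]
    (g : Fin m → F) (h : Fin r → F), (∀ j, g j ≠ 0) → (∀ j, h j ≠ 0) →
    ∀ c d : F, c ≠ 0 → d ≠ 0 → ∀ E : Finset F,
    (∀ e ∈ E, ∃ u v : F, u ≠ 0 ∧ v ≠ 0 ∧ InDiv h u ∧ InDiv h v ∧ c * u + d * v ≠ 0 ∧
      InDiv g (c * u + d * v) ∧ u / v = e) → E.card ≤ C ^ (m + r + 1) := by
  classical
  obtain ⟨C, hC1, hC⟩ := line
  refine ⟨C, hC1, ?_⟩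
  intro m r F _ _ g h hg hh c d hc hd E hE
  choose! u v hu hv hIu hIv hx hIx he using hE
  set P : F → F × F := fun e => (u e / (c * u e + d * v e), v e / (c * u e + d * v e)) with hP
  have hG := append_ne hg hh
  have h1 := hC (m + r) F (Fin.append g h) (Fin.append g h) hG hG c d hc hd (E.image P) (by
    intro p hp
    rw [Finset.mem_image] at hp
    obtain ⟨e, heE, rfl⟩ := hp
    refine ⟨?_, div_ne_zero (hu e heE) (hx e heE), div_ne_zero (hv e heE) (hx e heE), ?_, ?_⟩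
    · have := hx e heE
      rw [hP]
      field_simp
    · rw [hP]
      dsimp only
      rw [div_eq_mul_inv]
      exact indiv_mul hG (indiv_right g (hIu e heE)) (indiv_inv (indiv_left h (hIx e heE)))
    · rw [hP]
      dsimp only
      rw [div_eq_mul_inv]
      exact indiv_mul hG (indiv_right g (hIv e heE)) (indiv_inv (indiv_left h (hIx e heE))))
  rwa [Finset.card_image_of_injOn] at h1
  intro e heE e' heE' hee
  have h2 := congrArg Prod.fst hee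
  have h3 := congrArg Prod.snd hee
  rw [hP] at h2 h3
  dsimp only at h2 h3
  have hxe := hx e heE
  have hxe' := hx e' heE'
  have hve := hv e heE
  have hve' := hv e' heE'
  rw [← he e heE, ← he e' heE']
  have h4 : u e / v e = (u e / (c * u e + d * v e)) / (v e / (c * u e + d * v e)) :=
    (div_div_div_cancel_right₀ hxe _ _).symm
  have h5 : u e' / v e' = (u e' / (c * u e' + d * v e')) / (v e' / (c * u e' + d * v e')) :=
    (div_div_div_cancel_right₀ hxe' _ _).symm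
  rw [h4, h5, h2, h3]

/-- the numbers `± exp z`, `z ∈ Lam t V` -/
def Gam (t : ℂ) (V : Submodule QB ℂ) : Set ℂ :=
  {x | ∃ z ∈ Lam t V, Complex.exp z = x ∨ Complex.exp z = -x}

lemma gam_gens {t : ℂ} (ht : Transcendental ℚ t) (V : Submodule QB ℂ) [FiniteDimensional QB V]
    {k : ℕ} (hk : finrank QB V ≤ k) :
    ∃ g : Fin (k + 2) → ℂ, (∀ j, g j ≠ 0) ∧ ∀ x ∈ Gam t V, x ≠ 0 ∧ InDiv g x := by
  obtain ⟨g, hg, h⟩ := gens ht V hk
  refine ⟨g, hg, ?_⟩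
  rintro x ⟨z, hz, h1 | h1⟩
  · rw [← h1]
    exact ⟨Complex.exp_ne_zero _, h z hz⟩
  · rw [← neg_neg x, ← h1]
    exact ⟨neg_ne_zero.2 (Complex.exp_ne_zero _), indiv_neg (h z hz)⟩

/-- the numbers `x` such that `exp z = ± x` and `exp z`, `exp (t z)` are algebraic for some `z` -/
def Alg (t : ℂ) : Set ℂ :=
  {x | ∃ z : ℂ, (Complex.exp z = x ∨ Complex.exp z = -x) ∧ IsAlgebraic ℚ (Complex.exp z) ∧
    IsAlgebraic ℚ (Complex.exp (t * z))}

lemma alg_gens {t : ℂ} (ht : ∀ q : ℚ, t ≠ q) :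
    ∃ g : Fin 2 → ℂ, (∀ j, g j ≠ 0) ∧ ∀ x ∈ Alg t, x ≠ 0 ∧ InDiv g x := by
  by_cases halg : IsAlgebraic ℚ t
  · refine ⟨fun _ => 1, fun _ => one_ne_zero, ?_⟩
    rintro x ⟨z, h1, h2, h3⟩
    have hz : z = 0 := gs halg ht (mem_Lg.2 h2) (mem_Lg.2 h3)
    rw [hz, Complex.exp_zero] at h1
    rcases h1 with h1 | h1
    · rw [← h1]
      exact ⟨one_ne_zero, indiv_one _⟩
    · rw [← neg_neg x, ← h1]
      exact ⟨neg_ne_zero.2 one_ne_zero, indiv_neg (indiv_one _)⟩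
  · obtain ⟨g, hg, h⟩ := gam_gens (k := 0) halg (⊥ : Submodule QB ℂ) (by rw [finrank_bot])
    refine ⟨g, hg, ?_⟩
    rintro x ⟨z, h1, h2, h3⟩
    refine h x ⟨z, mem_Lam.2 ⟨h2, ?_⟩, h1⟩
    rw [sup_bot_eq]
    exact Lt_log h3

lemma gam_gens' {t : ℂ} (ht : Transcendental ℚ t) (V : Submodule QB ℂ) [FiniteDimensional QB V]
    {k : ℕ} (hk : finrank QB V ≤ k) :
    ∃ g : Fin (k + 2) → ℂ, (∀ j, g j ≠ 0) ∧ ∀ x ∈ {x : ℂ | ∃ z : ℂ, (Complex.exp z = x ∨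
      Complex.exp z = -x) ∧ IsAlgebraic ℚ (Complex.exp z) ∧ t * z ∈ Lt ⊔ V},
      x ≠ 0 ∧ InDiv g x := by
  obtain ⟨g, hg, h⟩ := gam_gens ht V hk
  refine ⟨g, hg, ?_⟩
  rintro x ⟨z, h1, h2, h3⟩
  exact h x ⟨z, mem_Lam.2 ⟨h2, h3⟩, h1⟩

/-- a general statement for a set `X` of numbers which lies in a group of rank `m` -/
theorem three : ∃ C : ℕ, 1 ≤ C ∧ ∀ (m : ℕ) (X : Set ℂ), (∃ g : Fin m → ℂ, (∀ j, g j ≠ 0) ∧
      ∀ x ∈ X, x ≠ 0 ∧ InDiv g x) → ∀ c d : ℂ, c ≠ 0 → d ≠ 0 →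
    (∀ (r : ℕ) (h : Fin r → ℂ), (∀ j, h j ≠ 0) → ∀ E : Finset ℂ, (∀ e ∈ E, ∃ u v : ℂ,
      u ≠ 0 ∧ v ≠ 0 ∧ InDiv h u ∧ InDiv h v ∧ c * u + d * v ∈ X ∧ u / v = e) →
      E.card ≤ C ^ (m + r + 1)) ∧
    (∀ a b : ℂ, a ≠ 0 → b ≠ 0 → (∀ n : ℕ, n ≠ 0 → a ^ n ≠ b ^ n) →
      ∀ E : Finset ℤ, (∀ n ∈ E, c * a ^ n + d * b ^ n ∈ X) → E.card ≤ C ^ (m + 3)) ∧
    (∀ a b : ℂ, a ≠ 0 → b ≠ 0 → (∀ n m : ℤ, a ^ n = b ^ m → n = 0 ∧ m = 0) →
      ∀ E : Finset (ℤ × ℤ), (∀ e ∈ E, c * a ^ e.1 + d * b ^ e.2 ∈ X) → E.card ≤ C ^ (m + 3)) := by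
  classical
  obtain ⟨C, hC1, hC⟩ := ratios
  refine ⟨C, hC1, ?_⟩
  intro m X hX c d hc hd
  obtain ⟨g, hg, hgX⟩ := hX
  have key : ∀ (r : ℕ) (h : Fin r → ℂ), (∀ j, h j ≠ 0) → ∀ E : Finset ℂ, (∀ e ∈ E, ∃ u v : ℂ,
      u ≠ 0 ∧ v ≠ 0 ∧ InDiv h u ∧ InDiv h v ∧ c * u + d * v ∈ X ∧ u / v = e) →
      E.card ≤ C ^ (m + r + 1) := by
    intro r h hh E hE
    refine hC m r ℂ g h hg hh c d hc hd E (fun e he => ?_)
    obtain ⟨u, v, h1, h2, h3, h4, h5, h6⟩ := hE e he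
    exact ⟨u, v, h1, h2, h3, h4, (hgX _ h5).1, (hgX _ h5).2, h6⟩
  have hab : ∀ a b : ℂ, a ≠ 0 → b ≠ 0 → ∀ j, (![a, b] : Fin 2 → ℂ) j ≠ 0 := by
    intro a b ha hb j
    fin_cases j
    · exact ha
    · exact hb
  refine ⟨key, fun a b ha hb hne E hE => ?_, fun a b ha hb hne E hE => ?_⟩
  · have h1 := key 2 ![a, b] (hab a b ha hb) (E.image fun n : ℤ => a ^ n / b ^ n) (by
      intro e he
      rw [Finset.mem_image] at he
      obtain ⟨n, hn, rfl⟩ := he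
      exact ⟨a ^ n, b ^ n, zpow_ne_zero _ ha, zpow_ne_zero _ hb,
        indiv_zpow (indiv_gen ![a, b] 0) n, indiv_zpow (indiv_gen ![a, b] 1) n, hE n hn, rfl⟩)
    rwa [Finset.card_image_of_injective] at h1
    intro n n' hnn
    dsimp only at hnn
    by_contra hcon
    have h2 : (a / b) ^ (n - n') = 1 := by
      rw [zpow_sub₀ (div_ne_zero ha hb), div_zpow, div_zpow, hnn]
      exact div_self (div_ne_zero (zpow_ne_zero _ ha) (zpow_ne_zero _ hb))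
    have h3 : (a / b) ^ (n - n').natAbs = 1 := by
      rcases Int.natAbs_eq (n - n') with h4 | h4
      · rw [h4, zpow_natCast] at h2
        exact h2
      · rw [h4, zpow_neg, zpow_natCast, inv_eq_one] at h2
        exact h2
    rw [div_pow, div_eq_one_iff_eq (pow_ne_zero _ hb)] at h3
    exact hne _ (by omega) h3
  · have h1 := key 2 ![a, b] (hab a b ha hb) (E.image fun e : ℤ × ℤ => a ^ e.1 / b ^ e.2) (by
      intro e he
      rw [Finset.mem_image] at he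
      obtain ⟨n, hn, rfl⟩ := he
      exact ⟨a ^ n.1, b ^ n.2, zpow_ne_zero _ ha, zpow_ne_zero _ hb,
        indiv_zpow (indiv_gen ![a, b] 0) n.1, indiv_zpow (indiv_gen ![a, b] 1) n.2, hE n hn, rfl⟩)
    rwa [Finset.card_image_of_injective] at h1
    intro n n' hnn
    dsimp only at hnn
    rw [div_eq_div_iff (zpow_ne_zero _ hb) (zpow_ne_zero _ hb)] at hnn
    have h2 : a ^ (n.1 - n'.1) = b ^ (n.2 - n'.2) := by
      rw [zpow_sub₀ ha, zpow_sub₀ hb, div_eq_div_iff (zpow_ne_zero _ ha) (zpow_ne_zero _ hb), hnn]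
      ring
    have h3 := hne _ _ h2
    exact Prod.ext (by omega) (by omega)

end Pool.Agent.U945.BR
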